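import Pool.Agent.L7h1.PY.Stm

/-!
# Project PY: the transposed companion matrix of the cyclotomic polynomial
-/

set_option autoImplicit false

namespace Pool.Agent.L7h89.PY

open Polynomial

/-- The transposed companion matrix of `Φ_t`. -/
theorem exists_cmp (t : ℕ) (ht : 0 < t) : ∃ (N : ℕ) (M : Matrix (Fin N) (Fin N) ℤ), 0 < N ∧
    M ^ t = 1 ∧ aeval M (cyclotomic t ℤ) = 0 ∧
    (∀ (w : Fin N → ℤ) (k : ℕ) (hk : k < N) (hk1 : k + 1 < N),
      M.mulVec w ⟨k, hk⟩ = w ⟨k + 1, hk1⟩) ∧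
    ∀ (K : Type) (_ : CommRing K) (_ : IsDomain K) (ω : K), IsPrimitiveRoot ω t → ∀ k : Fin N,
      ∑ l, ((M k l : ℤ) : K) * ω ^ (l : ℕ) = ω * ω ^ (k : ℕ) := by
  classical
  have hmon := cyclotomic.monic t ℤ
  let pb := AdjoinRoot.powerBasis' hmon
  let C : Matrix (Fin pb.dim) (Fin pb.dim) ℤ := Algebra.leftMulMatrix pb.basis pb.gen
  have hdim : pb.dim = (cyclotomic t ℤ).natDegree := rfl
  have hgen : aeval pb.gen (cyclotomic t ℤ) = 0 := by
    change aeval (AdjoinRoot.root (cyclotomic t ℤ)) (cyclotomic t ℤ) = 0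
    rw [AdjoinRoot.aeval_eq, AdjoinRoot.mk_self]
  have hC1 : aeval C (cyclotomic t ℤ) = 0 := by
    change aeval (Algebra.leftMulMatrix pb.basis pb.gen) (cyclotomic t ℤ) = 0
    rw [Polynomial.aeval_algHom_apply, hgen, map_zero]
  have hC2 : C ^ t = 1 := by
    obtain ⟨R, h1⟩ := cyclotomic.dvd_X_pow_sub_one t ℤ
    have h2 := congrArg (aeval C) h1
    rw [map_mul, hC1, zero_mul, map_sub, map_pow, aeval_X, map_one] at h2
    exact sub_eq_zero.1 h2
  refine ⟨pb.dim, C.transpose, ?_, ?_, ?_, ?_, ?_⟩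
  · rw [hdim, natDegree_cyclotomic]
    exact Nat.totient_pos.2 ht
  · rw [← Matrix.transpose_pow, hC2, Matrix.transpose_one]
  · have h1 : aeval C.transpose (cyclotomic t ℤ) = (aeval C (cyclotomic t ℤ)).transpose := by
      rw [aeval_eq_sum_range, aeval_eq_sum_range, Matrix.transpose_sum]
      refine Finset.sum_congr rfl fun i _ => ?_
      rw [Matrix.transpose_smul, Matrix.transpose_pow]
    rw [h1, hC1, Matrix.transpose_zero]
  · intro w k hk hk1
    rw [Matrix.mulVec, dotProduct]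
    have h1 : ∀ l : Fin pb.dim, C.transpose ⟨k, hk⟩ l = if (⟨k + 1, hk1⟩ : Fin pb.dim) = l then 1 else 0 := by
      intro l
      rw [Matrix.transpose_apply]
      change Algebra.leftMulMatrix pb.basis pb.gen l ⟨k, hk⟩ = _
      rw [Algebra.leftMulMatrix_eq_repr_mul, pb.basis_eq_pow]
      have h2 : pb.gen * pb.gen ^ k = pb.basis ⟨k + 1, hk1⟩ := by
        rw [pb.basis_eq_pow, pow_succ']
      change pb.basis.repr (pb.gen * pb.gen ^ k) l = _
      rw [h2, Module.Basis.repr_self, Finsupp.single_apply]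
    rw [Finset.sum_eq_single ⟨k + 1, hk1⟩]
    · rw [h1, if_pos rfl, one_mul]
    · intro l _ hl
      rw [h1, if_neg hl.symm, zero_mul]
    · intro h
      exact absurd (Finset.mem_univ _) h
  · intro K _ _ ω hω k
    have hroot : eval₂ (Int.castRingHom K) ω (cyclotomic t ℤ) = 0 := by
      have h1 := hω.isRoot_cyclotomic ht
      rw [← map_cyclotomic_int, IsRoot.def, eval_map] at h1
      exact h1
    let ev : AdjoinRoot (cyclotomic t ℤ) →+* K := AdjoinRoot.lift (Int.castRingHom K) ω hroot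
    have hev : ev pb.gen = ω := AdjoinRoot.lift_root hroot
    have h1 : ev (pb.gen * pb.basis k) = ω * ω ^ (k : ℕ) := by
      rw [pb.basis_eq_pow, map_mul, map_pow, hev]
    rw [← h1]
    conv_rhs => rw [← pb.basis.sum_repr (pb.gen * pb.basis k)]
    rw [map_sum]
    refine Finset.sum_congr rfl fun l _ => ?_
    have h3 : C.transpose k l = pb.basis.repr (pb.gen * pb.basis k) l := by
      rw [Matrix.transpose_apply]
      exact Algebra.leftMulMatrix_eq_repr_mul _ _ _ _
    have h4 : ev (pb.basis l) = ω ^ (l : ℕ) := by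
      rw [pb.basis_eq_pow, map_pow, hev]
    rw [zsmul_eq_mul, map_mul, map_intCast, h4, h3]

theorem aeval_cyc {K : Type} [CommRing K] [IsDomain K] {ξ : K} {m : ℕ} (hm : 0 < m)
    (hξ : IsPrimitiveRoot ξ m) : aeval ξ (cyclotomic m ℤ) = 0 := by
  have h2 := hξ.isRoot_cyclotomic hm
  rw [← map_cyclotomic_int, IsRoot.def, eval_map] at h2
  rw [aeval_def, algebraMap_int_eq]
  exact h2

end Pool.Agent.L7h89.PY
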