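import Pool.Agent.L7h89.PY.Cmp

/-!
# Project PY: Kronecker products and congruences of vectors
-/

set_option autoImplicit false

namespace Pool.Agent.L7h89.PY

open Polynomial
open scoped Kronecker

section kron

variable (m n : Type) [Fintype m] [DecidableEq m] [Fintype n] [DecidableEq n]

/-- the left factor -/
noncomputable def kL : Matrix m m ℤ →+* Matrix (m × n) (m × n) ℤ where
  toFun X := X ⊗ₖ (1 : Matrix n n ℤ)
  map_one' := Matrix.one_kronecker_one
  map_mul' X Y := by rw [← Matrix.mul_kronecker_mul, mul_one]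
  map_zero' := Matrix.zero_kronecker _
  map_add' X Y := Matrix.add_kronecker _ _ _

/-- the right factor -/
noncomputable def kR : Matrix n n ℤ →+* Matrix (m × n) (m × n) ℤ where
  toFun X := (1 : Matrix m m ℤ) ⊗ₖ X
  map_one' := Matrix.one_kronecker_one
  map_mul' X Y := by rw [← Matrix.mul_kronecker_mul, mul_one]
  map_zero' := Matrix.kronecker_zero _
  map_add' X Y := Matrix.kronecker_add _ _ _

variable {m n}

theorem kLR (X : Matrix m m ℤ) (Y : Matrix n n ℤ) : Commute (kL m n X) (kR m n Y) := by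
  change X ⊗ₖ (1 : Matrix n n ℤ) * ((1 : Matrix m m ℤ) ⊗ₖ Y) =
    (1 : Matrix m m ℤ) ⊗ₖ Y * X ⊗ₖ (1 : Matrix n n ℤ)
  rw [← Matrix.mul_kronecker_mul, ← Matrix.mul_kronecker_mul, one_mul, mul_one, one_mul, mul_one]

end kron

/-- the action of the integral matrices on the vectors over `R` -/
noncomputable def ac (R : Type) [CommRing R] {ι : Type} [Fintype ι] [DecidableEq ι] :
    Matrix ι ι ℤ →+* Module.End R (ι → R) :=
  ((Matrix.toLinAlgEquiv' (R := R) (n := ι) : Matrix ι ι R →+* Module.End R (ι → R))).comp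
    (Int.castRingHom R).mapMatrix

section action

variable {R : Type} [CommRing R] {ι : Type} [Fintype ι] [DecidableEq ι]

theorem ac_apply (N : Matrix ι ι ℤ) (w : ι → R) :
    ac R N w = (N.map (Int.cast : ℤ → R)).mulVec w := rfl

theorem ac_coord (N : Matrix ι ι ℤ) (w : ι → R) (i : ι) :
    ac R N w i = ∑ j, ((N i j : ℤ) : R) * w j := rfl

theorem ac_int (N : Matrix ι ι ℤ) (w : ι → ℤ) : ac ℤ N w = N.mulVec w := by
  funext i
  rw [ac_coord]
  simp only [Int.cast_id]
  rfl

/-- a ring homomorphism and integral polynomials -/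
theorem hom_aeval {S S' : Type} [Ring S] [Ring S'] (f : S →+* S') (x : S) (P : ℤ[X]) :
    f (aeval x P) = aeval (f x) P := by
  have h := Polynomial.map_aeval_eq_aeval_map (φ := RingHom.id ℤ) (ψ := f)
    (RingHom.ext_int _ _) P x
  rw [Polynomial.map_id] at h
  exact h

theorem ac_pow {N : Matrix ι ι ℤ} {w : ι → R} {c : R} (h : ac R N w = c • w) (j : ℕ) :
    ac R (N ^ j) w = c ^ j • w := by
  induction j with
  | zero => rw [pow_zero, pow_zero, map_one, one_smul]; rfl
  | succ j ih => rw [pow_succ, map_mul, Module.End.mul_apply, h, map_smul, ih, smul_smul, pow_succ']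

theorem ac_mul {N N' : Matrix ι ι ℤ} {w : ι → R} {c c' : R} (h : ac R N w = c • w)
    (h' : ac R N' w = c' • w) : ac R (N * N') w = (c * c') • w := by
  rw [map_mul, Module.End.mul_apply, h', map_smul, h, smul_smul, mul_comm]

theorem ac_sub {N N' : Matrix ι ι ℤ} {w : ι → R} {c : R} (h : ac R N w = c • w)
    (h' : ac R N' w = c • w) : ac R (N - N') w = 0 := by
  rw [map_sub, LinearMap.sub_apply, h, h', sub_self]

theorem ac_aeval {N : Matrix ι ι ℤ} {w : ι → R} {c : R} (h : ac R N w = c • w) (P : ℤ[X]) :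
    ac R (aeval N P) w = aeval c P • w := by
  induction P using Polynomial.induction_on' with
  | add P Q hP hQ => rw [map_add, map_add, LinearMap.add_apply, hP, hQ, map_add, add_smul]
  | monomial k a =>
    rw [aeval_monomial, aeval_monomial, map_mul, Module.End.mul_apply, ac_pow h,
      eq_intCast (algebraMap ℤ (Matrix ι ι ℤ)) a, eq_intCast (algebraMap ℤ R) a, map_intCast, mul_smul]
    exact (Int.cast_smul_eq_zsmul R a _).symm

end action

section kracts

variable {R : Type} [CommRing R] {m n : Type} [Fintype m] [DecidableEq m] [Fintype n] [DecidableEq n]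

theorem ac_kL (X : Matrix m m ℤ) (w : m × n → R) (k : m) (i : n) :
    ac R (kL m n X) w (k, i) = ac R X (fun k' => w (k', i)) k := by
  rw [ac_coord, ac_coord, Fintype.sum_prod_type]
  refine Finset.sum_congr rfl fun k' _ => ?_
  rw [Finset.sum_eq_single i]
  · change (((X k k' * (1 : Matrix n n ℤ) i i : ℤ)) : R) * w (k', i) = _
    rw [Matrix.one_apply_eq, mul_one]
  · intro i' _ hi'
    change (((X k k' * (1 : Matrix n n ℤ) i i' : ℤ)) : R) * w (k', i') = _
    rw [Matrix.one_apply_ne hi'.symm, mul_zero, Int.cast_zero, zero_mul]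
  · intro h
    exact absurd (Finset.mem_univ _) h

theorem ac_kR (Y : Matrix n n ℤ) (w : m × n → R) (k : m) (i : n) :
    ac R (kR m n Y) w (k, i) = ac R Y (fun i' => w (k, i')) i := by
  rw [ac_coord, ac_coord, Fintype.sum_prod_type]
  rw [Finset.sum_eq_single k]
  · refine Finset.sum_congr rfl fun i' _ => ?_
    change ((((1 : Matrix m m ℤ) k k * Y i i' : ℤ)) : R) * w (k, i') = _
    rw [Matrix.one_apply_eq, one_mul]
  · intro k' _ hk'
    refine Finset.sum_eq_zero fun i' _ => ?_
    change ((((1 : Matrix m m ℤ) k k' * Y i i' : ℤ)) : R) * w (k', i') = _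
    rw [Matrix.one_apply_ne hk'.symm, zero_mul, Int.cast_zero, zero_mul]
  · intro h
    exact absurd (Finset.mem_univ _) h

theorem kL_eig {X : Matrix m m ℤ} {v : m → R} {c : R} (h : ac R X v = c • v) (u : n → R) :
    ac R (kL m n X) (fun q => v q.1 * u q.2) = c • (fun q : m × n => v q.1 * u q.2) := by
  funext ⟨k, i⟩
  rw [ac_kL, ac_coord]
  have h1 := congrFun h k
  rw [ac_coord, Pi.smul_apply, smul_eq_mul] at h1
  change ∑ j, ((X k j : ℤ) : R) * (v j * u i) = c * (v k * u i)
  rw [← mul_assoc, ← h1, Finset.sum_mul]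
  exact Finset.sum_congr rfl fun _ _ => by ring

theorem kR_eig {Y : Matrix n n ℤ} {u : n → R} {c : R} (h : ac R Y u = c • u) (v : m → R) :
    ac R (kR m n Y) (fun q => v q.1 * u q.2) = c • (fun q : m × n => v q.1 * u q.2) := by
  funext ⟨k, i⟩
  rw [ac_kR, ac_coord]
  have h1 := congrFun h i
  rw [ac_coord, Pi.smul_apply, smul_eq_mul] at h1
  change ∑ j, ((Y i j : ℤ) : R) * (v k * u j) = c * (v k * u i)
  rw [mul_left_comm, ← h1, Finset.mul_sum]
  exact Finset.sum_congr rfl fun _ _ => by ring

end kracts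

/-- congruence of vectors -/
def Cg {ι : Type} (q : ℤ) (u v : ι → ℤ) : Prop := ∀ i, q ∣ u i - v i

section cg

variable {ι : Type} {q : ℤ} {u v w : ι → ℤ}

theorem cg_iff : Cg q u v ↔ ∃ z : ι → ℤ, u = v + q • z := by
  constructor
  · intro h
    choose z hz using h
    refine ⟨z, ?_⟩
    funext i
    rw [Pi.add_apply, Pi.smul_apply, smul_eq_mul, ← hz i]
    ring
  · rintro ⟨z, rfl⟩ i
    rw [Pi.add_apply, Pi.smul_apply, smul_eq_mul]
    exact ⟨z i, by ring⟩

theorem cg_refl (q : ℤ) (u : ι → ℤ) : Cg q u u := fun i => by rw [sub_self]; exact dvd_zero _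

theorem cg_symm (h : Cg q u v) : Cg q v u := fun i => by
  have := h i
  rw [← neg_sub]
  exact (dvd_neg).2 this

theorem cg_trans (h : Cg q u v) (h' : Cg q v w) : Cg q u w := fun i => by
  have := dvd_add (h i) (h' i)
  rwa [sub_add_sub_cancel] at this

theorem cg_lin (f : Module.End ℤ (ι → ℤ)) (h : Cg q u v) : Cg q (f u) (f v) := by
  obtain ⟨z, rfl⟩ := cg_iff.1 h
  exact cg_iff.2 ⟨f z, by rw [map_add, map_smul]⟩

theorem cg_pow {f : Module.End ℤ (ι → ℤ)} (h : Cg q (f u) u) (j : ℕ) : Cg q ((f ^ j) u) u := by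
  induction j with
  | zero => exact cg_refl q u
  | succ j ih =>
    rw [pow_succ, Module.End.mul_apply]
    exact cg_trans (cg_lin (f ^ j) h) ih

theorem cg_aeval {f g : Module.End ℤ (ι → ℤ)} (hfg : Commute f g) (h : Cg q (f u) (g u)) (P : ℤ[X]) :
    Cg q (aeval f P u) (aeval g P u) := by
  have hpow : ∀ j : ℕ, Cg q ((f ^ j) u) ((g ^ j) u) := by
    intro j
    induction j with
    | zero => exact cg_refl q u
    | succ j ih =>
      have h1 : (g ^ j) (f u) = f ((g ^ j) u) := by
        have := (hfg.symm.pow_left j).eq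
        exact congrArg (fun F : Module.End ℤ (ι → ℤ) => F u) this
      rw [pow_succ', Module.End.mul_apply, pow_succ, Module.End.mul_apply]
      refine cg_trans (cg_lin f ih) ?_
      rw [← h1]
      exact cg_lin (g ^ j) h
  induction P using Polynomial.induction_on' with
  | add P Q hP hQ =>
    rw [map_add, map_add, LinearMap.add_apply, LinearMap.add_apply]
    intro i
    have := dvd_add (hP i) (hQ i)
    rw [Pi.add_apply, Pi.add_apply, add_sub_add_comm]
    exact this
  | monomial k a =>
    rw [aeval_monomial, aeval_monomial, Module.End.mul_apply, Module.End.mul_apply]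
    exact cg_lin _ (hpow k)

end cg

end Pool.Agent.L7h89.PY
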