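import Pool.Agent.L7h89.PY.Kron

/-!
# Project PY: the twisted matrices
-/

set_option autoImplicit false

namespace Pool.Agent.L7h89.PY

open Polynomial

/-- all `ℤ`-algebra structures agree -/
theorem aeval_inst {S : Type} [Ring S] (i1 i2 : Algebra ℤ S) (x : S) (P : ℤ[X]) :
    @aeval ℤ S _ _ i1 x P = @aeval ℤ S _ _ i2 x P := by
  have h : i1 = i2 := Subsingleton.elim _ _
  subst h
  rfl

section tw

variable {N r : ℕ}

/-- the matrix of `ρ`, twisted -/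
noncomputable def tA (M : Matrix (Fin N) (Fin N) ℤ) (Aρ : Matrix (Fin r) (Fin r) ℤ) (t a : ℕ) :
    Matrix (Fin N × Fin r) (Fin N × Fin r) ℤ :=
  kL (Fin N) (Fin r) (M ^ ((t - 1) * a)) * kR (Fin N) (Fin r) Aρ

noncomputable def tD1 (M : Matrix (Fin N) (Fin N) ℤ) (Aρ Aγ : Matrix (Fin r) (Fin r) ℤ)
    (t a b : ℕ) : Matrix (Fin N × Fin r) (Fin N × Fin r) ℤ :=
  kR (Fin N) (Fin r) Aγ - tA M Aρ t a ^ b

noncomputable def tD2 (M : Matrix (Fin N) (Fin N) ℤ) (Aρ Aδ : Matrix (Fin r) (Fin r) ℤ)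
    (t a c : ℕ) : Matrix (Fin N × Fin r) (Fin N × Fin r) ℤ :=
  kL (Fin N) (Fin r) (M ^ (t - 1)) * kR (Fin N) (Fin r) Aδ - tA M Aρ t a ^ c

noncomputable def tD3 (M : Matrix (Fin N) (Fin N) ℤ) (Aρ : Matrix (Fin r) (Fin r) ℤ)
    (t a e : ℕ) : Matrix (Fin N × Fin r) (Fin N × Fin r) ℤ :=
  tA M Aρ t a ^ e - 1

variable {M : Matrix (Fin N) (Fin N) ℤ} {Aρ Aγ Aδ : Matrix (Fin r) (Fin r) ℤ} {t a b c e : ℕ}

theorem comm1 (h : Commute Aρ Aγ) : Commute (tA M Aρ t a) (tD1 M Aρ Aγ t a b) := by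
  refine Commute.sub_right ?_ ((Commute.refl _).pow_right b)
  exact (kLR _ _).mul_left (h.map _)

theorem comm2 (h : Commute Aρ Aδ) : Commute (tA M Aρ t a) (tD2 M Aρ Aδ t a c) := by
  refine Commute.sub_right ?_ ((Commute.refl _).pow_right c)
  refine Commute.mul_left ?_ ?_
  · refine Commute.mul_right ?_ (kLR _ _)
    exact (((Commute.refl M).pow_left _).pow_right _).map _
  · exact Commute.mul_right (kLR _ _).symm (h.map _)

theorem comm3 : Commute (tA M Aρ t a) (tD3 M Aρ t a e) :=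
  Commute.sub_right ((Commute.refl _).pow_right _) (Commute.one_right _)

section eig

variable {K : Type} [CommRing K] {ω ξ : K} {v : Fin N → K} {u : Fin r → K}

theorem eigA (ht : 0 < t) (hω : ω ^ t = 1) (hM : ac K M v = ω • v)
    (hρ : ac K Aρ u = (ω ^ a * ξ) • u) :
    ac K (tA M Aρ t a) (fun q => v q.1 * u q.2) = ξ • (fun q : Fin N × Fin r => v q.1 * u q.2) := by
  have hω1 : ω ^ (t - 1) * ω = 1 := by
    rw [← pow_succ, Nat.sub_add_cancel ht, hω]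
  rw [tA, ac_mul (kL_eig (ac_pow hM _) u) (kR_eig hρ v)]
  congr 1
  rw [← mul_assoc, pow_mul, ← mul_pow, hω1, one_pow, one_mul]

theorem eig1 (ht : 0 < t) (hω : ω ^ t = 1) (hM : ac K M v = ω • v)
    (hρ : ac K Aρ u = (ω ^ a * ξ) • u) (hγ : ac K Aγ u = (ξ ^ b) • u) :
    ac K (tD1 M Aρ Aγ t a b) (fun q => v q.1 * u q.2) = 0 :=
  ac_sub (kR_eig hγ v) (ac_pow (eigA ht hω hM hρ) b)

theorem eig2 (ht : 0 < t) (hω : ω ^ t = 1) (hM : ac K M v = ω • v)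
    (hρ : ac K Aρ u = (ω ^ a * ξ) • u) (hδ : ac K Aδ u = (ω * ξ ^ c) • u) :
    ac K (tD2 M Aρ Aδ t a c) (fun q => v q.1 * u q.2) = 0 := by
  have hω1 : ω ^ (t - 1) * ω = 1 := by
    rw [← pow_succ, Nat.sub_add_cancel ht, hω]
  refine ac_sub ?_ (ac_pow (eigA ht hω hM hρ) c)
  rw [ac_mul (kL_eig (ac_pow hM _) u) (kR_eig hδ v)]
  congr 1
  rw [← mul_assoc, hω1, one_mul]

theorem eig3 (ht : 0 < t) (hω : ω ^ t = 1) (hM : ac K M v = ω • v)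
    (hρ : ac K Aρ u = (ω ^ a * ξ) • u) (hξ : ξ ^ e = 1) :
    ac K (tD3 M Aρ t a e) (fun q => v q.1 * u q.2) = 0 := by
  have h1 := ac_pow (eigA ht hω hM hρ) e
  rw [hξ] at h1
  refine ac_sub h1 ?_
  rw [map_one, one_smul]
  rfl

theorem eigΦ (ht : 0 < t) (hω : ω ^ t = 1) (hM : ac K M v = ω • v)
    (hρ : ac K Aρ u = (ω ^ a * ξ) • u) {P : ℤ[X]} (hP : aeval ξ P = 0) :
    ac K (aeval (tA M Aρ t a) P) (fun q => v q.1 * u q.2) = 0 := by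
  rw [ac_aeval (eigA ht hω hM hρ), hP, zero_smul]

end eig

/-- the relations are stable -/
theorem stab {R K T : Type} [CommRing R] [CommRing K] (em : R →+* K) (Λ : T → Fin r → K)
    (s : T → T) (hs : ∀ σ i, ∑ j, ((Aρ j i : ℤ) : K) * Λ σ j = Λ (s σ) i)
    (x : Fin N × Fin r → R) (hx : ∀ k σ, ∑ i, em (x (k, i)) * Λ σ i = 0) (k : Fin N) (σ : T) :
    ∑ i, em (ac R (tA M Aρ t a) x (k, i)) * Λ σ i = 0 := by
  have hval : ∀ i, ac R (tA M Aρ t a) x (k, i) =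
      ∑ k', (((M ^ ((t - 1) * a)) k k' : ℤ) : R) * ∑ i', ((Aρ i i' : ℤ) : R) * x (k', i') := by
    intro i
    rw [tA, map_mul, Module.End.mul_apply, ac_kL, ac_coord]
    refine Finset.sum_congr rfl fun k' _ => ?_
    rw [ac_kR, ac_coord]
  have hterm : ∀ i, em (ac R (tA M Aρ t a) x (k, i)) * Λ σ i =
      ∑ k', (((M ^ ((t - 1) * a)) k k' : ℤ) : K) * ∑ i', em (x (k', i')) *
        (((Aρ i i' : ℤ) : K) * Λ σ i) := by
    intro i
    rw [hval, map_sum, Finset.sum_mul]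
    refine Finset.sum_congr rfl fun k' _ => ?_
    rw [map_mul, map_intCast, map_sum, mul_assoc, Finset.sum_mul]
    congr 1
    refine Finset.sum_congr rfl fun i' _ => ?_
    rw [map_mul, map_intCast]
    ring
  rw [Finset.sum_congr rfl fun i _ => hterm i, Finset.sum_comm]
  refine Finset.sum_eq_zero fun k' _ => ?_
  rw [← Finset.mul_sum, Finset.sum_comm]
  have h5 : ∀ i', ∑ i, em (x (k', i')) * (((Aρ i i' : ℤ) : K) * Λ σ i) =
      em (x (k', i')) * Λ (s σ) i' := by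
    intro i'
    rw [← Finset.mul_sum, hs]
  rw [Finset.sum_congr rfl fun i' _ => h5 i', hx, mul_zero]

/-- consequences for the integral vectors -/
theorem cons (ht : 0 < t) (hMt : M ^ t = 1) {P : ℤ[X]} (hMP : aeval M P = 0)
    {q : ℤ} {y : Fin N × Fin r → ℤ}
    (hA : Cg q (ac ℤ (tA M Aρ t a) y) y) (h1 : Cg q (ac ℤ (tD1 M Aρ Aγ t a b) y) 0)
    (h2 : Cg q (ac ℤ (tD2 M Aρ Aδ t a c) y) 0) :
    Cg q (ac ℤ (kR (Fin N) (Fin r) Aγ) y) y ∧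
    Cg q (ac ℤ (kR (Fin N) (Fin r) Aδ) y) (ac ℤ (kL (Fin N) (Fin r) M) y) ∧
    Cg q (ac ℤ (kR (Fin N) (Fin r) (aeval Aδ P)) y) 0 := by
  have hb : ∀ m, Cg q (ac ℤ (tA M Aρ t a ^ m) y) y := by
    intro m
    rw [map_pow]
    exact cg_pow hA m
  have k1 : Cg q (ac ℤ (kR (Fin N) (Fin r) Aγ) y) y := by
    refine cg_trans (fun i => ?_) (hb b)
    have := h1 i
    rw [tD1, map_sub, LinearMap.sub_apply, Pi.sub_apply, Pi.zero_apply, sub_zero] at this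
    exact this
  have k2 : Cg q (ac ℤ (kL (Fin N) (Fin r) (M ^ (t - 1)) * kR (Fin N) (Fin r) Aδ) y) y := by
    refine cg_trans (fun i => ?_) (hb c)
    have := h2 i
    rw [tD2, map_sub, LinearMap.sub_apply, Pi.sub_apply, Pi.zero_apply, sub_zero] at this
    exact this
  have k3 := cg_lin (ac ℤ (kL (Fin N) (Fin r) M)) k2
  rw [← Module.End.mul_apply, ← map_mul, ← mul_assoc, ← map_mul, ← pow_succ',
    Nat.sub_add_cancel ht, hMt, map_one, one_mul] at k3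
  refine ⟨k1, k3, ?_⟩
  have k4 := cg_aeval (((kLR M Aδ).symm).map (ac ℤ)) k3 P
  rw [← hom_aeval, ← hom_aeval, ← hom_aeval, ← hom_aeval, aeval_inst _ inferInstance M, hMP,
    map_zero, map_zero, aeval_inst _ inferInstance Aδ] at k4
  exact k4

end tw

/-- the rows are determined by the first one -/
theorem det_rows {d r : ℕ} {M : Matrix (Fin (d + 1)) (Fin (d + 1)) ℤ}
    {Aδ : Matrix (Fin r) (Fin r) ℤ}
    (hMs : ∀ (w : Fin (d + 1) → ℤ) (k : ℕ) (hk : k < d + 1) (hk1 : k + 1 < d + 1),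
      M.mulVec w ⟨k, hk⟩ = w ⟨k + 1, hk1⟩) {q : ℤ} {y y' : Fin (d + 1) × Fin r → ℤ}
    (hy : Cg q (ac ℤ (kR (Fin (d + 1)) (Fin r) Aδ) y) (ac ℤ (kL (Fin (d + 1)) (Fin r) M) y))
    (hy' : Cg q (ac ℤ (kR (Fin (d + 1)) (Fin r) Aδ) y') (ac ℤ (kL (Fin (d + 1)) (Fin r) M) y'))
    (h0 : Cg q (fun i => y (0, i)) (fun i => y' (0, i))) : Cg q y y' := by
  have hrowL : ∀ (y : Fin (d + 1) × Fin r → ℤ) (k : ℕ) (hk : k < d + 1) (hk1 : k + 1 < d + 1)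
      (i : Fin r), ac ℤ (kL (Fin (d + 1)) (Fin r) M) y (⟨k, hk⟩, i) = y (⟨k + 1, hk1⟩, i) := by
    intro y k hk hk1 i
    rw [ac_kL, ac_int]
    exact hMs (fun k' => y (k', i)) k hk hk1
  have hk : ∀ (k : ℕ) (hk : k < d + 1), Cg q (fun i => y (⟨k, hk⟩, i)) (fun i => y' (⟨k, hk⟩, i)) := by
    intro k
    induction k with
    | zero => intro _; exact h0
    | succ k ih =>
      intro hk1
      have hk0 : k < d + 1 := by omega
      have h1 := ih hk0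
      intro i
      have e1 := hrowL y k hk0 hk1 i
      have e2 := hrowL y' k hk0 hk1 i
      have e3 := hy (⟨k, hk0⟩, i)
      have e4 := hy' (⟨k, hk0⟩, i)
      rw [ac_kR, e1] at e3
      rw [ac_kR, e2] at e4
      have e5 := cg_lin (ac ℤ Aδ) h1 i
      have e6 := dvd_add (dvd_sub e5 e3) e4
      obtain ⟨z, hz⟩ := e6
      change q ∣ y (⟨k + 1, hk1⟩, i) - y' (⟨k + 1, hk1⟩, i)
      exact ⟨z, by rw [← hz]; ring⟩
  rintro ⟨⟨k, hk'⟩, i⟩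
  exact hk k hk' i

theorem ac_eq_iff {R : Type} [CommRing R] {ι : Type} [Fintype ι] [DecidableEq ι]
    (N : Matrix ι ι ℤ) (w : ι → R) (c : R) :
    ac R N w = c • w ↔ ∀ i, ∑ j, ((N i j : ℤ) : R) * w j = c * w i := by
  constructor
  · intro h i
    have := congrFun h i
    rw [ac_coord, Pi.smul_apply, smul_eq_mul] at this
    exact this
  · intro h
    funext i
    rw [ac_coord, Pi.smul_apply, smul_eq_mul]
    exact h i

/-- scaling into the integers -/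
theorem scale' {p : ℕ} [Fact p.Prime] {ι : Type} [Fintype ι] (v : ι → ℚ_[p]) :
    ∃ N : ℕ, ∃ x : ι → ℤ_[p], ∀ i, ((x i : ℤ_[p]) : ℚ_[p]) = (p : ℚ_[p]) ^ N * v i := by
  have hp : p.Prime := Fact.out
  have hp1 : (1 : ℝ) < p := by exact_mod_cast hp.one_lt
  obtain ⟨N, hN⟩ := pow_unbounded_of_one_lt (∑ i, ‖v i‖) hp1
  have h1 : ∀ i, ‖(p : ℚ_[p]) ^ N * v i‖ ≤ 1 := by
    intro i
    rw [norm_mul, norm_pow, Padic.norm_p, inv_pow]
    have h2 : ‖v i‖ ≤ ∑ i, ‖v i‖ :=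
      Finset.single_le_sum (f := fun i => ‖v i‖) (fun i _ => norm_nonneg _) (Finset.mem_univ i)
    have h3 : (0 : ℝ) < (p : ℝ) ^ N := by positivity
    rw [inv_mul_le_iff₀ h3, mul_one]
    linarith
  exact ⟨N, fun i => ⟨_, h1 i⟩, fun i => rfl⟩

/-- an integral matrix killing a vector over `K` kills its scaled image under a functional -/
theorem key_ker {p : ℕ} [Fact p.Prime] {K : Type} [CommRing K] [Algebra ℚ_[p] K] {ι : Type}
    [Fintype ι] [DecidableEq ι] {x' : ι → K}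
    {φ : K →ₗ[ℚ_[p]] ℚ_[p]} {N : ℕ} {y : ι → ℤ_[p]}
    (hy : ∀ i, ((y i : ℤ_[p]) : ℚ_[p]) = (p : ℚ_[p]) ^ N * φ (x' i)) {M : Matrix ι ι ℤ}
    (hM : ac K M x' = 0) : (M.map (Int.cast : ℤ → ℤ_[p])).mulVec y = 0 := by
  funext i
  have h1 := congrArg φ (congrFun hM i)
  rw [ac_coord, map_sum, Pi.zero_apply, map_zero] at h1
  have h2 : ∀ j, φ (((M i j : ℤ) : K) * x' j) = ((M i j : ℤ) : ℚ_[p]) * φ (x' j) := by
    intro j
    have e : ((M i j : ℤ) : K) * x' j = ((M i j : ℤ) : ℚ_[p]) • x' j := by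
      rw [Algebra.smul_def, map_intCast]
    rw [e, map_smul, smul_eq_mul]
  rw [Finset.sum_congr rfl fun j _ => h2 j] at h1
  apply PadicInt.ext
  rw [Matrix.mulVec, dotProduct, PadicInt.coe_sum]
  have h3 : ∀ j, (((M.map (Int.cast : ℤ → ℤ_[p]) i j * y j : ℤ_[p])) : ℚ_[p]) =
      (p : ℚ_[p]) ^ N * (((M i j : ℤ) : ℚ_[p]) * φ (x' j)) := by
    intro j
    rw [PadicInt.coe_mul, hy, Matrix.map_apply]
    push_cast
    ring
  rw [Finset.sum_congr rfl fun j _ => h3 j, ← Finset.mul_sum, h1, mul_zero]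
  rfl

/-- The vector over `ℤ_p` for one level. -/
theorem gen_vec {p : ℕ} [Fact p.Prime] {K : Type} [Field K] [Algebra ℚ_[p] K] {T : Type}
    {d r : ℕ} {M : Matrix (Fin (d + 1)) (Fin (d + 1)) ℤ}
    {Aρ Aγ Aδ : Matrix (Fin r) (Fin r) ℤ} {t a b c n j : ℕ} (ht : 0 < t) (hjn : j ≤ n)
    {ω ξ : K} (hω : IsPrimitiveRoot ω t) (hξ : IsPrimitiveRoot ξ (p ^ j))
    (hM : ∀ k : Fin (d + 1), ∑ l, ((M k l : ℤ) : K) * ω ^ (l : ℕ) = ω * ω ^ (k : ℕ))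
    (Λ : T → Fin r → K)
    (hRAT : ∀ c : Fin r → K, (∀ σ, ∑ i, c i * Λ σ i = 0) → ∀ φ : K →ₗ[ℚ_[p]] ℚ_[p], ∀ σ,
      ∑ i, algebraMap ℚ_[p] K (φ (c i)) * Λ σ i = 0)
    (u : Fin r → K) (i0 : Fin r) (hi0 : u i0 ≠ 0) (hu : ∀ σ, ∑ i, u i * Λ σ i = 0)
    (hρ : ∀ i, ∑ j, ((Aρ i j : ℤ) : K) * u j = (ω ^ a * ξ) * u i)
    (hγ : ∀ i, ∑ j, ((Aγ i j : ℤ) : K) * u j = ξ ^ b * u i)
    (hδ : ∀ i, ∑ j, ((Aδ i j : ℤ) : K) * u j = (ω * ξ ^ c) * u i) :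
    ∃ y : Fin (d + 1) × Fin r → ℤ_[p], y ≠ 0 ∧
      (∀ (k : Fin (d + 1)) (σ : T), ∑ i, algebraMap ℚ_[p] K (y (k, i) : ℚ_[p]) * Λ σ i = 0) ∧
      ((tD1 M Aρ Aγ t a b).map (Int.cast : ℤ → ℤ_[p])).mulVec y = 0 ∧
      ((tD2 M Aρ Aδ t a c).map (Int.cast : ℤ → ℤ_[p])).mulVec y = 0 ∧
      ((tD3 M Aρ t a (p ^ n)).map (Int.cast : ℤ → ℤ_[p])).mulVec y = 0 ∧
      (Polynomial.aeval ((tA M Aρ t a).map (Int.cast : ℤ → ℤ_[p]))
        (Polynomial.cyclotomic (p ^ j) ℤ_[p])).mulVec y = 0 := by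
  have hωt : ω ^ t = 1 := hω.pow_eq_one
  obtain ⟨v, hv⟩ : ∃ v : Fin (d + 1) → K, v = fun (k : Fin (d + 1)) => ω ^ (k : ℕ) := ⟨_, rfl⟩
  have hMv : ac K M v = ω • v := by
    rw [ac_eq_iff, hv]
    exact hM
  have hv0 : v 0 ≠ 0 := by
    rw [hv]
    simp
  have eρ := (ac_eq_iff Aρ u (ω ^ a * ξ)).2 hρ
  have eγ := (ac_eq_iff Aγ u (ξ ^ b)).2 hγ
  have eδ := (ac_eq_iff Aδ u (ω * ξ ^ c)).2 hδ
  have hξn : ξ ^ p ^ n = 1 := by
    have h2 : p ^ n = p ^ j * p ^ (n - j) := by rw [← pow_add]; congr 1; omega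
    rw [h2, pow_mul, hξ.pow_eq_one, one_pow]
  have hξΦ := aeval_cyc (pow_pos (Fact.out : p.Prime).pos j) hξ
  have hi0' : v 0 * u i0 ≠ 0 := mul_ne_zero hv0 hi0
  obtain ⟨φ, hφ⟩ : ∃ φ : K →ₗ[ℚ_[p]] ℚ_[p], φ (v 0 * u i0) ≠ 0 := by
    by_contra hcon
    push Not at hcon
    exact hi0' ((Module.forall_dual_apply_eq_zero_iff ℚ_[p] _).1 hcon)
  obtain ⟨N, y, hy⟩ := scale' (fun q : Fin (d + 1) × Fin r => φ (v q.1 * u q.2))
  have hp0 : (p : ℚ_[p]) ≠ 0 := by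
    have : p ≠ 0 := (Fact.out : p.Prime).ne_zero
    exact_mod_cast this
  refine ⟨y, ?_, ?_, key_ker hy (eig1 ht hωt hMv eρ eγ), key_ker hy (eig2 ht hωt hMv eρ eδ),
    key_ker hy (eig3 ht hωt hMv eρ hξn), ?_⟩
  · intro h0
    have h1 := hy (0, i0)
    rw [h0] at h1
    have h2 : (p : ℚ_[p]) ^ N * φ (v 0 * u i0) = 0 := h1.symm.trans (by rfl)
    exact (mul_ne_zero (pow_ne_zero _ hp0) hφ) h2
  · intro k σ
    have h1 := hRAT (fun i => v k * u i) (by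
      intro σ'
      have h3 : ∀ i, v k * u i * Λ σ' i = v k * (u i * Λ σ' i) := fun i => mul_assoc _ _ _
      rw [Finset.sum_congr rfl fun i _ => h3 i, ← Finset.mul_sum, hu, mul_zero]) φ σ
    have h2 : ∀ i, algebraMap ℚ_[p] K ((y (k, i) : ℤ_[p]) : ℚ_[p]) * Λ σ i =
        algebraMap ℚ_[p] K ((p : ℚ_[p]) ^ N) * (algebraMap ℚ_[p] K (φ (v k * u i)) * Λ σ i) := by
      intro i
      rw [hy, map_mul]
      ring
    rw [Finset.sum_congr rfl fun i _ => h2 i, ← Finset.mul_sum, h1, mul_zero]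
  · have h1 : (aeval ((tA M Aρ t a).map (Int.cast : ℤ → ℤ_[p])) (cyclotomic (p ^ j) ℤ_[p])) =
        (aeval (tA M Aρ t a) (cyclotomic (p ^ j) ℤ)).map (Int.cast : ℤ → ℤ_[p]) := by
      have h := Polynomial.map_aeval_eq_aeval_map (φ := Int.castRingHom ℤ_[p])
        (ψ := (Int.castRingHom ℤ_[p]).mapMatrix) (RingHom.ext_int _ _) (cyclotomic (p ^ j) ℤ)
        (tA M Aρ t a)
      rw [map_cyclotomic_int] at h
      exact h.symm
    rw [h1]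
    exact key_ker hy (eigΦ ht hωt hMv eρ hξΦ)

end Pool.Agent.L7h89.PY
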