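import Pool.Agent.L7h1.PY.Stm

/-!
# Project PY: the pigeonhole for the valuations at `R` (S_PIG)
-/

set_option autoImplicit false

namespace Pool.Agent.L7h89.PY

open NumberField IsDedekindDomain Pool.Agent.L7h1.PX Pool.Agent.L7h1.PY

section od

variable {B : Type} [Field B] [NumberField B]

/-- the valuation as an integer -/
noncomputable def od (v : HeightOneSpectrum (𝓞 B)) (a : Bˣ) : ℤ :=
  WithZero.log (v.valuation B (a : B))

theorem val_ne (v : HeightOneSpectrum (𝓞 B)) (a : Bˣ) : v.valuation B (a : B) ≠ 0 := by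
  rw [Valuation.ne_zero_iff]
  exact a.ne_zero

theorem od_mul (v : HeightOneSpectrum (𝓞 B)) (a b : Bˣ) : od v (a * b) = od v a + od v b := by
  rw [od, Units.val_mul, map_mul, WithZero.log_mul (val_ne v a) (val_ne v b)]
  rfl

theorem od_div (v : HeightOneSpectrum (𝓞 B)) (a b : Bˣ) : od v (a / b) = od v a - od v b := by
  have h : a / b * b = a := div_mul_cancel a b
  have h1 := od_mul v (a / b) b
  rw [h] at h1
  linarith

theorem od_pow (v : HeightOneSpectrum (𝓞 B)) (a : Bˣ) (n : ℕ) : od v (a ^ n) = n * od v a := by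
  rw [od, Units.val_pow_eq_pow_val, map_pow, WithZero.log_pow, nsmul_eq_mul]
  rfl

theorem exists_val (v : HeightOneSpectrum (𝓞 B)) (m : ℤ) :
    ∃ e : Bˣ, od v e = m := by
  obtain ⟨π, hπ⟩ := v.valuation_exists_uniformizer B
  have hπ0 : π ≠ 0 := by
    rintro rfl
    rw [map_zero] at hπ
    exact WithZero.exp_ne_zero hπ.symm
  refine ⟨Units.mk0 (π ^ (-m)) (zpow_ne_zero _ hπ0), ?_⟩
  rw [od, Units.val_mk0, map_zpow₀, hπ, ← WithZero.exp_zsmul, WithZero.log_exp]
  simp

theorem dvd_iff (v : HeightOneSpectrum (𝓞 B)) {m : ℕ} (hm : 0 < m) (a : Bˣ) :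
    Dvd v m (a : B) ↔ (m : ℤ) ∣ od v a := by
  constructor
  · rintro ⟨b, hb⟩
    have hb0 : b ≠ 0 := by
      rintro rfl
      rw [map_zero, zero_pow hm.ne'] at hb
      exact val_ne v a hb
    refine ⟨od v (Units.mk0 b hb0), ?_⟩
    rw [← od_pow, od, od, hb, Units.val_pow_eq_pow_val, Units.val_mk0, map_pow]
  · rintro ⟨x, hx⟩
    obtain ⟨e, he⟩ := exists_val v x
    refine ⟨(e : B), ?_⟩
    have h1 : WithZero.log (v.valuation B (a : B)) = WithZero.log (v.valuation B (e : B) ^ m) := by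
      change od v a = _
      rw [hx, ← map_pow, ← Units.val_pow_eq_pow_val]
      change _ = od v (e ^ m)
      rw [od_pow, he]
    rw [← WithZero.exp_log (val_ne v a), h1, WithZero.exp_log (pow_ne_zero _ (val_ne v e))]

end od

theorem s_PIG : S_PIG := by
  classical
  intro p _ B _ _ k R m Y hYne hY
  have hp : 0 < p := (Fact.out : p.Prime).pos
  haveI : ∀ v : HeightOneSpectrum (𝓞 B), NeZero (p ^ m v) := fun v => ⟨(pow_pos hp _).ne'⟩
  have hx : ∀ a ∈ Y, ∀ v ∈ R, ∃ x : ℤ, od v a = ((p ^ (k - m v) : ℕ) : ℤ) * x := by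
    intro a ha v hv
    exact (dvd_iff v (pow_pos hp _) a).1 (hY a ha v hv)
  choose! x hx using hx
  let c : Bˣ → (∀ v : R, ZMod (p ^ m v)) := fun a v => ((x a v : ℤ) : ZMod (p ^ m v))
  obtain ⟨a₀, ha₀, hmax⟩ := Finset.exists_max_image Y
    (fun a => (Y.filter (fun b => c b = c a)).card) hYne
  refine ⟨Y.filter (fun b => c b = c a₀), Finset.filter_subset _ _, a₀,
    Finset.mem_filter.2 ⟨ha₀, rfl⟩, ?_, ?_⟩
  · have h1 := Finset.card_le_mul_card_image (f := c) Y (Y.filter (fun b => c b = c a₀)).card (by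
      intro r hr
      rw [Finset.mem_image] at hr
      obtain ⟨a, ha, rfl⟩ := hr
      exact hmax a ha)
    refine h1.trans (Nat.mul_le_mul_left _ ((Finset.card_le_univ _).trans (le_of_eq ?_)))
    rw [Fintype.card_pi]
    have h2 : ∀ v : R, Fintype.card (ZMod (p ^ m (v : HeightOneSpectrum (𝓞 B)))) =
        p ^ m (v : HeightOneSpectrum (𝓞 B)) := fun v => ZMod.card _
    rw [Finset.prod_congr rfl (fun v _ => h2 v), Finset.prod_pow_eq_pow_sum]
    congr 1
    exact Finset.sum_coe_sort R m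
  · intro a ha v hv
    rw [Finset.mem_filter] at ha
    obtain ⟨ha, hac⟩ := ha
    rw [dvd_iff v (pow_pos hp _), od_div, hx a ha v hv, hx a₀ ha₀ v hv]
    have h2 : ((x a v : ℤ) : ZMod (p ^ m v)) = ((x a₀ v : ℤ) : ZMod (p ^ m v)) :=
      congrFun hac ⟨v, hv⟩
    rw [ZMod.intCast_eq_intCast_iff_dvd_sub] at h2
    have h3 : ((p ^ (k - m v) : ℕ) : ℤ) * x a v - ((p ^ (k - m v) : ℕ) : ℤ) * x a₀ v =
        -(((p ^ (k - m v) : ℕ) : ℤ) * (x a₀ v - x a v)) := by ring
    rw [h3, dvd_neg]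
    refine dvd_trans ?_ (mul_dvd_mul_left _ h2)
    have h4 : p ^ k ∣ p ^ (k - m v) * p ^ m v := by
      rw [← pow_add]
      exact pow_dvd_pow _ (by omega)
    exact_mod_cast h4

end Pool.Agent.L7h89.PY
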