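import Pool.Agent.L7h1.PY.Stm

/-!
# Project PY: the condition on the primes for a subextension (S_RAMD2)
-/

set_option autoImplicit false

namespace Pool.Agent.L7h89.PY

open NumberField IsDedekindDomain Pool.Agent.L7h1.PX Pool.Agent.L7h1.PY

theorem s_RAMD2 : S_RAMD2 := by
  intro p _ B H' H _ _ _ _ _ _ _ _ _ _ S δ t Q R m hQ w'
  have hcomp : algebraMap (𝓞 B) (𝓞 H) = (algebraMap (𝓞 H') (𝓞 H)).comp (algebraMap (𝓞 B) (𝓞 H')) := by
    refine RingHom.ext fun x => ?_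
    apply RingOfIntegers.ext
    exact IsScalarTower.algebraMap_apply B H' H (x : B)
  -- a prime above
  obtain ⟨P, hPm, hP⟩ := Ideal.exists_maximal_ideal_liesOver_of_isIntegral (S := 𝓞 H) w'.asIdeal
  have hP2 : P.comap (algebraMap (𝓞 H') (𝓞 H)) = w'.asIdeal := hP.over.symm
  have hP0 : P ≠ ⊥ := by
    intro h0
    apply w'.ne_bot
    rw [← hP2, h0, ← RingHom.ker_eq_comap_bot]
    exact (RingHom.injective_iff_ker_eq_bot _).1 (FaithfulSMul.algebraMap_injective (𝓞 H') (𝓞 H))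
  let w : HeightOneSpectrum (𝓞 H) := ⟨P, hPm.isPrime, hP0⟩
  have hw : w.asIdeal.comap (algebraMap (𝓞 H') (𝓞 H)) = w'.asIdeal := hP2
  have hwB : w.asIdeal.comap (algebraMap (𝓞 B) (𝓞 H)) =
      w'.asIdeal.comap (algebraMap (𝓞 B) (𝓞 H')) := by
    rw [hcomp, ← Ideal.comap_comap, hw]
  have hpw : ∀ N : ℕ, (w'.asIdeal.comap (algebraMap (𝓞 B) (𝓞 H'))).map (algebraMap (𝓞 B) (𝓞 H')) ≤
      w'.asIdeal ^ N → (w.asIdeal.comap (algebraMap (𝓞 B) (𝓞 H))).map (algebraMap (𝓞 B) (𝓞 H)) ≤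
      w.asIdeal ^ N := by
    intro N hn
    rw [hwB, hcomp, ← Ideal.map_map]
    refine (Ideal.map_mono hn).trans ?_
    rw [Ideal.map_pow]
    exact Ideal.pow_right_mono (Ideal.map_le_iff_le_comap.2 hw.ge) N
  rcases hQ w with (⟨σ, hσ, hi⟩ | hu | ⟨v, hv, h⟩) | ⟨v, hv, h1, h2⟩
  · left; left
    refine ⟨σ.comp (algebraMap H' H), ?_, ?_⟩
    · have h1 : (σ.comp (algebraMap H' H)).comp (algebraMap B H') = σ.comp (algebraMap B H) := by
        rw [RingHom.comp_assoc, ← IsScalarTower.algebraMap_eq B H' H]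
      rw [h1]
      exact hσ
    · intro x
      have h1 := hi (algebraMap (𝓞 H') (𝓞 H) x)
      rw [← hw, Ideal.mem_comap, h1]
      rfl
  · left; right; left
    intro hn
    exact hu (hpw 2 hn)
  · left; right; right
    exact ⟨v, hv.trans hwB, h⟩
  · right
    exact ⟨v, hv, h1.trans hwB, fun hn => h2 (hpw _ hn)⟩

end Pool.Agent.L7h89.PY
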