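import Pool.Agent.L7h89.PY.Pig

/-!
# Project PY: the Selmer groups modulo higher powers are not larger (S_SELG)
-/

set_option autoImplicit false

namespace Pool.Agent.L7h89.PY

open NumberField IsDedekindDomain Pool.Agent.L7h1.PX Pool.Agent.L7h1.PY Polynomial

/-- No roots of unity of order a power of `p` if there are none of order `p`. -/
theorem no_mu {F : Type} [Field F] (A : Subfield F) {p : ℕ} (h : ∀ ζ ∈ A, ζ ^ p = 1 → ζ = 1) (j : ℕ)
    {r : F} (hr : r ∈ A) (h1 : r ^ p ^ j = 1) : r = 1 := by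
  induction j with
  | zero => simpa using h1
  | succ j ih =>
    apply ih
    apply h _ (pow_mem hr _)
    rw [← pow_mul, ← pow_succ]
    exact h1

theorem pinj {B : Type} [Field B] {p : ℕ} (h : ∀ ζ : B, ζ ^ p = 1 → ζ = 1) (n : ℕ) {x y : Bˣ}
    (hxy : x ^ p ^ n = y ^ p ^ n) : x = y := by
  have h1 : ((x / y : Bˣ) : B) = 1 := by
    refine no_mu (⊤ : Subfield B) (fun ζ _ => h ζ) n (Subfield.mem_top _) ?_
    rw [← Units.val_pow_eq_pow_val, div_pow, hxy, div_self', Units.val_one]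
  have h2 : x / y = 1 := Units.ext h1
  exact div_eq_one.1 h2

section

variable {p : ℕ} [hp : Fact p.Prime] {B : Type} [Field B] [NumberField B]
  {S : Set (B →+* ℂ_[p])} {δ : B ≃+* B} {t : ℕ}

theorem insel_mono {k m : ℕ} (hmk : m ≤ k) {a : Bˣ} (h : InSel p S δ t k a) :
    InSel p S δ t m a := by
  have hpp : ∀ n, 0 < p ^ n := fun n => pow_pos hp.out.pos n
  obtain ⟨h1, h2, c, h3⟩ := h
  have hkm : p ^ k = p ^ (k - m) * p ^ m := by rw [← pow_add]; congr 1; omega
  refine ⟨fun v => ?_, fun τ hτ => ?_, c ^ p ^ (k - m), ?_⟩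
  · rw [dvd_iff v (hpp m)]
    refine dvd_trans ?_ ((dvd_iff v (hpp k) a).1 (h1 v))
    exact_mod_cast pow_dvd_pow p hmk
  · obtain ⟨b, hb, hb2⟩ := h2 τ hτ
    refine ⟨b ^ p ^ (k - m), pow_mem hb _, ?_⟩
    rw [← pow_mul, ← hkm, hb2]
  · rw [h3, ofMul_pow, ← mul_smul, mul_comm, ← hkm]

/-- roots of elements of the Selmer group -/
theorem insel_root (hμB : ∀ ζ : B, ζ ^ p = 1 → ζ = 1) (hμ : ∀ τ ∈ S, ∀ ζ ∈ cl τ, ζ ^ p = 1 → ζ = 1)
    {k j : ℕ} (hjk : j ≤ k) {c : Bˣ} (h : InSel p S δ t k (c ^ p ^ j)) :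
    InSel p S δ t (k - j) c := by
  have hpp : ∀ n, 0 < p ^ n := fun n => pow_pos hp.out.pos n
  obtain ⟨h1, h2, e, h3⟩ := h
  have hkm : p ^ k = p ^ j * p ^ (k - j) := by rw [← pow_add]; congr 1; omega
  refine ⟨fun v => ?_, fun τ hτ => ?_, e, ?_⟩
  · rw [dvd_iff v (hpp _)]
    have h4 := (dvd_iff v (hpp k) _).1 (h1 v)
    rw [od_pow, hkm, Nat.cast_mul] at h4
    exact Int.dvd_of_mul_dvd_mul_left (by exact_mod_cast (hpp j).ne') h4
  · obtain ⟨b, hb, hb2⟩ := h2 τ hτ
    refine ⟨b, hb, ?_⟩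
    have h5 : τ (c : B) ≠ 0 := (map_ne_zero τ).2 c.ne_zero
    have h6 : b ^ p ^ (k - j) / τ (c : B) = 1 := by
      refine no_mu (cl τ) (hμ τ hτ) j (div_mem (pow_mem hb _) (mem_cl τ _)) ?_
      rw [div_pow, ← pow_mul, mul_comm, ← hkm, hb2, Units.val_pow_eq_pow_val, map_pow,
        div_self (pow_ne_zero _ h5)]
    rwa [div_eq_one_iff_eq h5] at h6
  · rw [ofMul_pow, map_nsmul, hkm, mul_smul] at h3
    obtain ⟨f, hf⟩ : ∃ f : Bˣ, Additive.ofMul f =
        aeval (bE (δ : B →+* B)) (cyclotomic t ℤ) (Additive.ofMul c) := ⟨_, rfl⟩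
    rw [← hf] at h3 ⊢
    rw [← ofMul_pow, ← ofMul_pow, ← ofMul_pow] at h3
    have h4 := pinj hμB j (Additive.ofMul.injective h3)
    rw [h4, ofMul_pow]

theorem insel_one (k : ℕ) : InSel p S δ t k 1 := by
  refine ⟨fun v => ⟨1, by simp⟩, fun τ _ => ⟨1, one_mem _, by simp⟩, 1, ?_⟩
  rw [ofMul_one, map_zero, smul_zero]

theorem insel_mul {k : ℕ} {a b : Bˣ} (ha : InSel p S δ t k a) (hb : InSel p S δ t k b) :
    InSel p S δ t k (a * b) := by
  obtain ⟨h1, h2, c, h3⟩ := ha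
  obtain ⟨g1, g2, d, g3⟩ := hb
  refine ⟨fun v => ?_, fun τ hτ => ?_, c * d, ?_⟩
  · obtain ⟨x, hx⟩ := h1 v
    obtain ⟨y, hy⟩ := g1 v
    refine ⟨x * y, ?_⟩
    rw [Units.val_mul, map_mul, map_mul, mul_pow, hx, hy]
  · obtain ⟨x, hx, hx2⟩ := h2 τ hτ
    obtain ⟨y, hy, hy2⟩ := g2 τ hτ
    refine ⟨x * y, mul_mem hx hy, ?_⟩
    rw [mul_pow, hx2, hy2, Units.val_mul, map_mul]
  · rw [ofMul_mul, map_add, h3, g3, ofMul_mul]
    exact (nsmul_add _ _ _).symm

theorem insel_pow {k : ℕ} {a : Bˣ} (ha : InSel p S δ t k a) (n : ℕ) :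
    InSel p S δ t k (a ^ n) := by
  induction n with
  | zero => rw [pow_zero]; exact insel_one k
  | succ n ih => rw [pow_succ]; exact insel_mul ih ha

/-- An element of the Selmer group modulo `p ^ m` is a `p`-th power if the Selmer group is small. -/
theorem exists_root (hμB : ∀ ζ : B, ζ ^ p = 1 → ζ = 1) {m : ℕ} (hSel : SelLt p S δ t m) {c : Bˣ}
    (hc : InSel p S δ t m c) : ∃ d : Bˣ, c = d ^ p := by
  classical
  by_contra hno
  have key : ∀ j l : ℕ, l < j → j < p ^ m → ¬ ∃ d : Bˣ, c ^ j = c ^ l * d ^ p ^ m := by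
    rintro j l hlj hj ⟨d, hd⟩
    have h1 : c ^ (j - l) = d ^ p ^ m := by
      have : c ^ j = c ^ l * c ^ (j - l) := by rw [← pow_add]; congr 1; omega
      rw [this] at hd
      exact mul_left_cancel hd
    obtain ⟨s, u, hu, hsu⟩ := Nat.exists_eq_pow_mul_and_not_dvd (n := j - l) (by omega) p
      hp.out.ne_one
    have hsm : s < m := by
      by_contra hge
      push Not at hge
      have h2 : p ^ m ≤ p ^ s := Nat.pow_le_pow_right hp.out.pos hge
      have h3 : 0 < u := Nat.pos_of_ne_zero (by rintro rfl; simp at hu)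
      have h4 : p ^ s ≤ j - l := by rw [hsu]; exact Nat.le_mul_of_pos_right _ h3
      omega
    have h5 : c ^ u = d ^ p ^ (m - s) := by
      apply pinj hμB s
      rw [← pow_mul, ← pow_mul, mul_comm u, ← hsu, h1, ← pow_add]
      congr 2
      omega
    -- Bezout
    have hcop : Nat.Coprime u p := ((Nat.Prime.coprime_iff_not_dvd hp.out).2 hu).symm
    have hbez : (u : ℤ) * Nat.gcdA u p + (p : ℤ) * Nat.gcdB u p = 1 := by
      rw [← Nat.gcd_eq_gcd_ab, hcop]; rfl
    apply hno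
    refine ⟨(d ^ p ^ (m - s - 1)) ^ (Nat.gcdA u p) * c ^ (Nat.gcdB u p), ?_⟩
    have h6 : (d ^ p ^ (m - s - 1)) ^ p = c ^ u := by
      rw [h5, ← pow_mul, ← pow_succ]
      congr 2
      omega
    calc c = c ^ ((u : ℤ) * Nat.gcdA u p + (p : ℤ) * Nat.gcdB u p) := by rw [hbez, zpow_one]
      _ = (c ^ u) ^ (Nat.gcdA u p) * (c ^ (Nat.gcdB u p)) ^ p := by
        rw [zpow_add, zpow_mul, zpow_natCast, mul_comm (p : ℤ), zpow_mul, zpow_natCast]
      _ = _ := by
        rw [← h6, mul_pow]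
        congr 1
        rw [← zpow_natCast, ← zpow_natCast _ p, ← zpow_mul, ← zpow_mul, mul_comm (p : ℤ)]
  have hinj : Set.InjOn (fun j : ℕ => c ^ j) (Finset.range (p ^ m) : Set ℕ) := by
    intro j hj l hl hjl
    simp only [Finset.coe_range, Set.mem_Iio] at hj hl
    rcases lt_trichotomy j l with h | h | h
    · exact absurd ⟨1, by rw [one_pow, mul_one]; exact hjl.symm⟩ (key l j h hl)
    · exact h
    · exact absurd ⟨1, by rw [one_pow, mul_one]; exact hjl⟩ (key j l h hj)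
  have h1 := hSel ((Finset.range (p ^ m)).image (fun j => c ^ j)) (by
    intro a ha
    rw [Finset.mem_image] at ha
    obtain ⟨j, -, rfl⟩ := ha
    exact insel_pow hc j) (by
    intro a ha a' ha' hne
    rw [Finset.mem_image] at ha ha'
    obtain ⟨j, hj, rfl⟩ := ha
    obtain ⟨l, hl, rfl⟩ := ha'
    rw [Finset.mem_range] at hj hl
    rintro ⟨d, hd⟩
    rcases lt_trichotomy j l with h | h | h
    · refine key l j h hl ⟨d⁻¹, ?_⟩
      rw [hd, inv_pow, mul_inv_cancel_right]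
    · exact hne (by rw [h])
    · exact key j l h hj ⟨d, hd⟩)
  rw [Finset.card_image_of_injOn hinj, Finset.card_range] at h1
  exact lt_irrefl _ h1

end

theorem s_SELG : S_SELG := by
  classical
  intro p hp B _ _ S hS hμ δ t m hSel k Z hZ hinc
  obtain ⟨τ0, hτ0⟩ := hS
  have hμB : ∀ ζ : B, ζ ^ p = 1 → ζ = 1 := noMu_of_cl τ0 (hμ τ0 hτ0)
  rcases Nat.lt_or_ge k m with hkm | hmk
  · -- small `k`
    have hq : p ^ m = p ^ k * p ^ (m - k) := by rw [← pow_add]; congr 1; omega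
    have hq' : ∀ c : Bˣ, c ^ p ^ m = (c ^ p ^ k) ^ p ^ (m - k) := by
      intro c; rw [← pow_mul, ← hq]
    have hinj : Set.InjOn (fun a : Bˣ => a ^ p ^ (m - k)) (Z : Set Bˣ) := by
      intro a _ b _ hab
      exact pinj hμB _ hab
    have h1 := hSel (Z.image (fun a => a ^ p ^ (m - k))) (by
      intro a ha
      rw [Finset.mem_image] at ha
      obtain ⟨a, ha, rfl⟩ := ha
      obtain ⟨h1, h2, c, h3⟩ := hZ a ha
      refine ⟨fun v => ?_, fun τ hτ => ?_, c, ?_⟩
      · obtain ⟨b, hb⟩ := h1 v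
        refine ⟨b, ?_⟩
        rw [Units.val_pow_eq_pow_val, map_pow, hb, ← pow_mul, ← hq]
      · obtain ⟨b, hb, hb2⟩ := h2 τ hτ
        refine ⟨b, hb, ?_⟩
        rw [Units.val_pow_eq_pow_val, map_pow, ← hb2, ← pow_mul, ← hq]
      · rw [ofMul_pow, map_nsmul, h3, ← mul_smul, mul_comm, ← hq]) (by
      intro a ha a' ha' hne
      rw [Finset.mem_image] at ha ha'
      obtain ⟨a, ha, rfl⟩ := ha
      obtain ⟨a', ha', rfl⟩ := ha'
      rintro ⟨c, hc⟩
      refine hinc a ha a' ha' (fun h => hne (by rw [h])) ⟨c, ?_⟩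
      apply pinj hμB (m - k)
      rw [mul_pow, ← hq', hc])
    rwa [Finset.card_image_of_injOn hinj] at h1
  · -- large `k`
    have hroot : ∀ a ∈ Z, ∃ b : Bˣ, a = b ^ p ^ (k - m) := by
      intro a ha
      have hP : ∀ n, n ≤ k - m → ∃ b : Bˣ, a = b ^ p ^ n := by
        intro n
        induction n with
        | zero => intro _; exact ⟨a, by simp⟩
        | succ n ih =>
          intro hn
          obtain ⟨b, hb⟩ := ih (by omega)
          have h1 : InSel p S δ t (k - n) b := by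
            apply insel_root hμB hμ (by omega)
            rw [← hb]
            exact hZ a ha
          obtain ⟨d, hd⟩ := exists_root hμB hSel (insel_mono (by omega) h1)
          refine ⟨d, ?_⟩
          rw [hb, hd, ← pow_mul, ← pow_succ']
      exact hP _ le_rfl
    choose! b hb using hroot
    have hinj : Set.InjOn b (Z : Set Bˣ) := by
      intro a ha a' ha' h
      rw [hb a ha, hb a' ha', h]
    have hq : p ^ k = p ^ m * p ^ (k - m) := by rw [← pow_add]; congr 1; omega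
    have h1 := hSel (Z.image b) (by
      intro x hx
      rw [Finset.mem_image] at hx
      obtain ⟨a, ha, rfl⟩ := hx
      have h2 := insel_root (j := k - m) (k := k) hμB hμ (by omega) (c := b a)
        (by rw [← hb a ha]; exact hZ a ha)
      have h3 : k - (k - m) = m := by omega
      rwa [h3] at h2) (by
      intro x hx x' hx' hne
      rw [Finset.mem_image] at hx hx'
      obtain ⟨a, ha, rfl⟩ := hx
      obtain ⟨a', ha', rfl⟩ := hx'
      rintro ⟨c, hc⟩
      refine hinc a ha a' ha' (fun h => hne (by rw [h])) ⟨c, ?_⟩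
      calc a = b a ^ p ^ (k - m) := hb a ha
        _ = b a' ^ p ^ (k - m) * c ^ p ^ k := by
          rw [hc, mul_pow, ← pow_mul, ← hq]
        _ = a' * c ^ p ^ k := by rw [← hb a' ha'])
    rwa [Finset.card_image_of_injOn hinj] at h1

end Pool.Agent.L7h89.PY
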