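import Pool.Agent.L7h89.PY.Kron2
import Pool.Agent.L7h97.PX.Uni

/-!
# Project PY: many units, twisted action (S_UNI2)
-/

set_option autoImplicit false

namespace Pool.Agent.L7h89.PY

open NumberField TensorProduct Pool.Agent.W289.SL Module Polynomial Pool.Agent.L7h1.PX
open Pool.Agent.L7h1.PY Pool.Agent.L7h97.PX
open Pool.Agent.L7h28.PX (cz cz_spec cf cf_tmul czf czf_unique decomp aeval_tmul power_of_dvd log_tmul
  coe_unitHom unit_ext uE_pow_eq uE_apply uE_pow)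

theorem sum_row {K : Type} [CommRing K] {m n : Type} [Fintype m] [DecidableEq m] [Fintype n] (k : m)
    (f : m × n → K) (g : n → K) :
    ∑ q : m × n, f q * (if q.1 = k then g q.2 else 0) = ∑ i, f (k, i) * g i := by
  rw [Fintype.sum_prod_type, Finset.sum_eq_single k]
  · refine Finset.sum_congr rfl fun i _ => ?_
    rw [if_pos rfl]
  · intro k' _ hk'
    refine Finset.sum_eq_zero fun i _ => ?_
    rw [if_neg hk', mul_zero]
  · intro h
    exact absurd (Finset.mem_univ _) h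

section mats

variable {H : Type} [Field H] [NumberField H] {p : ℕ} [Fact p.Prime]

theorem mat_comm {g h : H ≃+* H} (hc : ∀ x, g (h x) = h (g x)) :
    Commute (mat (uE (g : H →+* H))) (mat (uE (h : H →+* H))) := by
  have h1 : Commute (uE (g : H →+* H)) (uE (h : H →+* H)) := by
    refine LinearMap.ext fun m => ?_
    rw [Module.End.mul_apply, Module.End.mul_apply]
    have h1 : ((uE (g : H →+* H) (uE (h : H →+* H) m)).toMul : (𝓞 H)ˣ) =
        (uE (h : H →+* H) (uE (g : H →+* H) m)).toMul := by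
      apply unit_ext
      rw [uE_apply, uE_apply, uE_apply, uE_apply, coe_unitHom, coe_unitHom, coe_unitHom,
        coe_unitHom]
      exact hc _
    exact h1
  exact h1.map (matR H)

theorem cf_eig {f : H →+* H} {x : UM p H} {c : ℂ_[p]} (h : actLin p f x = c • x)
    (i : Fin (Units.rank H)) :
    ∑ j, ((mat (uE f) i j : ℤ) : ℂ_[p]) * cf j x = c * cf i x := by
  have h1 := cf_end (p := p) f X x i
  rw [aeval_X, aeval_X, h, map_smul] at h1
  exact h1.symm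

/-- the coordinates of the image of a unit -/
theorem cz_end' (E : Module.End ℤ (Additive (𝓞 H)ˣ)) (y : Fin (Units.rank H) → ℤ)
    (i : Fin (Units.rank H)) : cz H i (E (uz y)) = ((mat E).mulVec y) i := by
  rw [cz_end]
  simp only [cz_uz]
  rfl

/-- the logarithms of the image -/
theorem log_act {L : ℂ_[p] → ℂ_[p]} (hL : IsIwasawaLog p L) (σ : H →+* ℂ_[p]) (ρ : H ≃+* H)
    (i : Fin (Units.rank H)) :
    ∑ j, ((mat (uE (ρ : H →+* H)) j i : ℤ) : ℂ_[p]) * L (σ ((Units.fundSystem H j : 𝓞 H) : H)) =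
      L (σ (ρ ((Units.fundSystem H i : 𝓞 H) : H))) := by
  have h1 := log_dec hL σ ((uE (ρ : H →+* H)) (fz H i)).toMul
  have h2 : (((((uE (ρ : H →+* H)) (fz H i)).toMul : (𝓞 H)ˣ) : 𝓞 H) : H) =
      ρ ((Units.fundSystem H i : 𝓞 H) : H) := by
    rw [uE_apply, coe_unitHom]
    rfl
  rw [h2] at h1
  exact h1.symm

end mats

/-- the unit with the first row as coordinates -/
noncomputable def W0 {H : Type} [Field H] [NumberField H] {d : ℕ}
    (y : Fin (d + 1) × Fin (Units.rank H) → ℤ) : Additive (𝓞 H)ˣ := uz (fun i => y (0, i))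

theorem cz_W0 {H : Type} [Field H] [NumberField H] {d : ℕ}
    (y : Fin (d + 1) × Fin (Units.rank H) → ℤ) (i : Fin (Units.rank H)) :
    cz H i (W0 y) = y (0, i) := cz_uz _ i

theorem pow_of_cg {p : ℕ} [Fact p.Prime] {H : Type} [Field H] [NumberField H]
    (hroot : ∀ ζ : H, ζ ^ p = 1 → ζ = 1) (k : ℕ) (u : Additive (𝓞 H)ˣ)
    (h : ∀ i, (p : ℤ) ^ k ∣ cz H i u) : ∃ w : (𝓞 H)ˣ, u = p ^ k • Additive.ofMul w := by
  obtain ⟨w, hw⟩ := power_of_dvd hroot u.toMul k (by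
    intro i
    have h1 := h i
    first
      | exact h1
      | exact_mod_cast h1)
  exact ⟨w, hw⟩

theorem s_UNI2 (hLAT : S_LAT2) : S_UNI2 := by
  classical
  intro p _ H _ _ hroot L hL T γ δ ρ n t a b c ht hγρ hδρ hT1 hT2 J hJ
  obtain ⟨N0, M, hN0, hMt, hMc, hMs, hMe⟩ := exists_cmp t ht
  obtain ⟨d, rfl⟩ : ∃ d, N0 = d + 1 := ⟨N0 - 1, by omega⟩
  obtain ⟨Aρ, hAρ⟩ : ∃ A, A = mat (uE (ρ : H →+* H)) := ⟨_, rfl⟩
  obtain ⟨Aγ, hAγ⟩ : ∃ A, A = mat (uE (γ : H →+* H)) := ⟨_, rfl⟩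
  obtain ⟨Aδ, hAδ⟩ : ∃ A, A = mat (uE (δ : H →+* H)) := ⟨_, rfl⟩
  have hcγ : Commute Aρ Aγ := by rw [hAρ, hAγ]; exact (mat_comm hγρ).symm
  have hcδ : Commute Aρ Aδ := by rw [hAρ, hAδ]; exact (mat_comm hδρ).symm
  have hfinT : Finite T := inferInstance
  -- the logarithms
  obtain ⟨Λ, hΛ⟩ : ∃ Λ : T → Fin (Units.rank H) → ℂ_[p], ∀ σ i, Λ σ i =
    L ((σ : H →+* ℂ_[p]) ((Units.fundSystem H i : 𝓞 H) : H)) := ⟨_, fun _ _ => rfl⟩
  obtain ⟨l, hl⟩ : ∃ l : Fin (d + 1) × T → Fin (d + 1) × Fin (Units.rank H) → ℂ_[p],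
    l = fun κ q => if q.1 = κ.1 then Λ κ.2 q.2 else 0 := ⟨_, rfl⟩
  have hrow : ∀ (f : Fin (d + 1) × Fin (Units.rank H) → ℂ_[p]) (κ : Fin (d + 1) × T),
      ∑ q, f q * l κ q = ∑ i, f (κ.1, i) * Λ κ.2 i := by
    intro f κ
    rw [hl]
    exact sum_row κ.1 f (fun i => Λ κ.2 i)
  have hRAT : ∀ c : Fin (Units.rank H) → ℂ_[p], (∀ σ, ∑ i, c i * Λ σ i = 0) →
      ∀ φ : ℂ_[p] →ₗ[ℚ_[p]] ℚ_[p], ∀ σ,
      ∑ i, algebraMap ℚ_[p] ℂ_[p] (φ (c i)) * Λ σ i = 0 := by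
    intro c hc φ σ
    have h1 := s_RAT p H L hL (Units.rank H) (fun i => Units.fundSystem H i) c σ (by
      intro σ' hσ'
      have h2 := hc ⟨σ', hT1 σ σ' hσ' σ.2⟩
      simp only [hΛ] at h2
      exact h2) φ
    simp only [hΛ]
    exact h1
  have hvec : ∀ j ∈ J, 1 ≤ j ∧ ∃ x : Fin (d + 1) × Fin (Units.rank H) → ℤ_[p], x ≠ 0 ∧
      (∀ σ, ∑ i, algebraMap ℚ_[p] ℂ_[p] (x i : ℚ_[p]) * l σ i = 0) ∧
      (∀ g : Fin 3, ((![tD1 M Aρ Aγ t a b, tD2 M Aρ Aδ t a c, tD3 M Aρ t a (p ^ n)] g).map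
        (Int.cast : ℤ → ℤ_[p])).mulVec x = 0) ∧
      (Polynomial.aeval ((tA M Aρ t a).map (Int.cast : ℤ → ℤ_[p]))
        (Polynomial.cyclotomic (p ^ j) ℤ_[p])).mulVec x = 0 := by
    intro j hj
    obtain ⟨hj1, hjn, x, ω, ξ, hx0, hω, hξ, hxL, hxρ, hxγ, hxδ⟩ := hJ j hj
    refine ⟨hj1, ?_⟩
    obtain ⟨i0, hi0⟩ : ∃ i0, cf i0 x ≠ 0 := by
      by_contra hcon
      push Not at hcon
      apply hx0
      rw [decomp x]
      exact Finset.sum_eq_zero fun i _ => by rw [hcon i]; exact zero_smul ℂ_[p] _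
    have eρ := cf_eig hxρ
    have eγ := cf_eig hxγ
    have eδ := cf_eig hxδ
    rw [← hAρ] at eρ
    rw [← hAγ] at eγ
    rw [← hAδ] at eδ
    obtain ⟨y, hy0, hyL, z1, z2, z3, z4⟩ := gen_vec (K := ℂ_[p]) (b := b) (c := c) ht hjn hω hξ
      (hMe ℂ_[p] _ inferInstance ω hω) Λ hRAT (fun i => cf i x) i0 hi0
      (fun σ => by
        simp only [hΛ]
        rw [← log_vec hL]
        exact hxL σ σ.2) eρ eγ eδ
    refine ⟨y, hy0, ?_, ?_, z4⟩
    · intro κ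
      rw [hrow]
      exact hyL κ.1 κ.2
    · intro g
      match g with
      | 0 => exact z1
      | 1 => exact z2
      | 2 => exact z3
  -- stability of the relations
  have hstab : ∀ x : Fin (d + 1) × Fin (Units.rank H) → ℤ_[p],
      (∀ σ, ∑ i, algebraMap ℚ_[p] ℂ_[p] (x i : ℚ_[p]) * l σ i = 0) →
      ∀ σ, ∑ i, algebraMap ℚ_[p] ℂ_[p]
        ((((tA M Aρ t a).map (Int.cast : ℤ → ℤ_[p])).mulVec x i : ℤ_[p]) : ℚ_[p]) * l σ i = 0 := by
    intro x hx κ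
    rw [hrow]
    refine stab (R := ℤ_[p]) (K := ℂ_[p]) (M := M) (Aρ := Aρ) (t := t) (a := a)
      ((algebraMap ℚ_[p] ℂ_[p]).comp PadicInt.Coe.ringHom) Λ
      (fun σ => ⟨(σ : H →+* ℂ_[p]).comp (ρ : H →+* H), hT2 σ σ.2⟩) ?_ x ?_ κ.1 κ.2
    · intro σ i
      simp only [hΛ]
      rw [hAρ]
      exact log_act hL (σ : H →+* ℂ_[p]) ρ i
    · intro k σ
      have h1 := hx (k, σ)
      rw [hrow] at h1
      exact h1
  obtain ⟨Y, hY1, hY2, hY3⟩ := hLAT p (Fin (d + 1) × Fin (Units.rank H)) n (tA M Aρ t a) (Fin 3)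
    ![tD1 M Aρ Aγ t a b, tD2 M Aρ Aδ t a c, tD3 M Aρ t a (p ^ n)]
    (Fin (d + 1) × T) l J (by
      intro g
      fin_cases g
      · exact (comm1 hcγ).eq
      · exact (comm2 hcδ).eq
      · exact comm3.eq) ⟨2, rfl⟩ hstab hvec
  -- consequences for the elements of `Y`
  obtain ⟨q, hq⟩ : ∃ q : ℤ, q = (p : ℤ) ^ J.card := ⟨_, rfl⟩
  have hY : ∀ y ∈ Y, Cg q (ac ℤ (kR (Fin (d + 1)) (Fin (Units.rank H)) Aγ) y) y ∧
      Cg q (ac ℤ (kR (Fin (d + 1)) (Fin (Units.rank H)) Aδ) y)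
        (ac ℤ (kL (Fin (d + 1)) (Fin (Units.rank H)) M) y) ∧
      Cg q (ac ℤ (kR (Fin (d + 1)) (Fin (Units.rank H)) (aeval Aδ (cyclotomic t ℤ))) y) 0 := by
    intro y hy
    obtain ⟨h1, h2, -⟩ := hY3 y hy
    refine cons (M := M) (Aρ := Aρ) (a := a) (b := b) (c := c) ht hMt hMc ?_ ?_ ?_
    · rw [ac_int, cg_iff, hq]
      exact h1
    · rw [ac_int, cg_iff, hq]
      obtain ⟨z, hz⟩ := h2 0
      exact ⟨z, by rw [zero_add]; exact hz⟩
    · rw [ac_int, cg_iff, hq]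
      obtain ⟨z, hz⟩ := h2 1
      exact ⟨z, by rw [zero_add]; exact hz⟩
  have hinc : ∀ y ∈ Y, ∀ y' ∈ Y, Cg q (fun i => y (0, i)) (fun i => y' (0, i)) → y = y' := by
    intro y hy y' hy' h0
    by_contra hne
    apply hY2 y hy y' hy' hne
    rw [← hq]
    exact cg_iff.1 (det_rows hMs (hY y hy).2.1 (hY y' hy').2.1 h0)
  have hinj : Set.InjOn (fun y => ((W0 y).toMul : (𝓞 H)ˣ))
      (Y : Set (Fin (d + 1) × Fin (Units.rank H) → ℤ)) := by
    intro y hy y' hy' h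
    apply hinc y hy y' hy'
    have h1 : W0 y = W0 y' := h
    intro i
    have h2 : y (0, i) = y' (0, i) := by rw [← cz_W0 y i, h1, cz_W0]
    change q ∣ y (0, i) - y' (0, i)
    rw [h2, sub_self]
    exact dvd_zero _
  refine ⟨Y.image (fun y => ((W0 y).toMul : (𝓞 H)ˣ)), ?_, ?_, ?_⟩
  · rw [Finset.card_image_of_injOn hinj]
    exact hY1
  · intro u hu u' hu' hne ⟨w, hw⟩
    obtain ⟨y, hy, rfl⟩ := Finset.mem_image.1 hu
    obtain ⟨y', hy', rfl⟩ := Finset.mem_image.1 hu'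
    apply hne
    have hyy : y = y' := by
      apply hinc y hy y' hy'
      have h1 : W0 y = W0 y' + p ^ J.card • Additive.ofMul w := hw
      intro i
      have h2 := congrArg (cz H i) h1
      rw [map_add, cz_W0, cz_W0, map_nsmul] at h2
      change q ∣ y (0, i) - y' (0, i)
      rw [h2, nsmul_eq_mul, hq]
      exact ⟨cz H i (Additive.ofMul w), by push_cast; ring⟩
    rw [hyy]
  · intro u hu
    obtain ⟨y, hy, rfl⟩ := Finset.mem_image.1 hu
    obtain ⟨-, -, h3⟩ := hY3 y hy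
    obtain ⟨k1, -, k3⟩ := hY y hy
    refine ⟨?_, ?_, ?_⟩
    · obtain ⟨w, hw⟩ := pow_of_cg hroot J.card (uE (γ : H →+* H) (W0 y) - W0 y) (by
        intro i
        have h2 := k1 (0, i)
        rw [ac_kR, ac_int] at h2
        have h4 : cz H i (uE (γ : H →+* H) (W0 y)) = (Aγ.mulVec (fun i' => y (0, i'))) i := by
          rw [hAγ]
          exact cz_end' _ _ i
        rw [map_sub, cz_W0, h4, ← hq]
        exact h2)
      refine ⟨w, ?_⟩
      have h4 : ((uE (γ : H →+* H) (W0 y)).toMul : (𝓞 H)ˣ) = (W0 y).toMul * w ^ p ^ J.card := by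
        have h5 : uE (γ : H →+* H) (W0 y) = W0 y + p ^ J.card • Additive.ofMul w := by
          rw [← hw]
          abel
        exact h5
      have h5 : ((((uE (γ : H →+* H) (W0 y)).toMul : (𝓞 H)ˣ) : 𝓞 H) : H) =
          ((((W0 y).toMul * w ^ p ^ J.card : (𝓞 H)ˣ) : 𝓞 H) : H) := by rw [h4]
      rw [uE_apply, coe_unitHom] at h5
      rw [Units.val_mul, Units.val_pow_eq_pow_val] at h5
      have h6 : (((((W0 y).toMul : (𝓞 H)ˣ) : 𝓞 H) * ((w : 𝓞 H)) ^ p ^ J.card : 𝓞 H) : H) =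
          ((((W0 y).toMul : (𝓞 H)ˣ) : 𝓞 H) : H) * ((w : 𝓞 H) : H) ^ p ^ J.card := by
        push_cast
        rfl
      rw [h6] at h5
      exact h5
    · obtain ⟨w, hw⟩ := pow_of_cg hroot J.card
        (aeval (uE (δ : H →+* H)) (cyclotomic t ℤ) (W0 y)) (by
        intro i
        have h2 := k3 (0, i)
        rw [ac_kR, ac_int, Pi.zero_apply, sub_zero] at h2
        have h4 : cz H i (aeval (uE (δ : H →+* H)) (cyclotomic t ℤ) (W0 y)) =
            ((aeval Aδ (cyclotomic t ℤ)).mulVec (fun i' => y (0, i'))) i := by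
          rw [hAδ, ← mat_aeval]
          exact cz_end' _ _ i
        rw [h4, ← hq]
        exact h2)
      exact ⟨w, hw⟩
    · intro ε hε
      obtain ⟨z, hz⟩ := h3 ε hε
      refine ⟨(W0 z).toMul, fun σ hσ => ?_⟩
      have h4 := hz (0, ⟨σ, hσ⟩)
      rw [hrow] at h4
      simp only [hΛ] at h4
      rw [log_dec hL σ]
      have h5 : ∀ j, cz H j (Additive.ofMul ((W0 y).toMul * ((W0 z).toMul) ^ p ^ J.card)) =
          (y + (p : ℤ) ^ J.card • z) (0, j) := by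
        intro j
        have h6 : Additive.ofMul ((W0 y).toMul * ((W0 z).toMul) ^ p ^ J.card) =
            W0 y + p ^ J.card • W0 z := rfl
        rw [h6, map_add, map_nsmul, cz_W0, cz_W0, Pi.add_apply, Pi.smul_apply, nsmul_eq_mul,
          smul_eq_mul]
        push_cast
        rfl
      simp only [h5]
      exact h4

end Pool.Agent.L7h89.PY
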